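import Pool.Agent.V11199.WS.Finite

namespace Pool.Agent.V11199.WS

open Classical in
/-- The function `A` (membership in the set of `A`-cells) follows the pattern (exactly one `A` in
four consecutive cells) along `t ↦ (f t, g t)` for `-6 ≤ t ≤ 6`, the `A`s being at `t ≡ φ`. -/
def LineOK (A : ℤ → ℤ → Prop) (f g : ℤ → ℤ) (φ : ℕ) : Prop :=
  ∀ t : ℤ, -6 ≤ t → t ≤ 6 → (A (f t) (g t) ↔ t % 4 = (φ : ℤ))

def GoodLine (A : ℤ → ℤ → Prop) (f g : ℤ → ℤ) : Prop :=
  ∃ φ : ℕ, φ < 4 ∧ LineOK A f g φ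

open Classical in
/-- the phase of a line (`4` if the line is not good) -/
noncomputable def phase (A : ℤ → ℤ → Prop) (f g : ℤ → ℤ) : ℕ :=
  if h : GoodLine A f g then h.choose else 4

open Classical in
/-- indicator of a proposition -/
noncomputable def ind (P : Prop) : ℕ := if P then 1 else 0

lemma phase_le (A : ℤ → ℤ → Prop) (f g : ℤ → ℤ) : phase A f g ≤ 4 := by
  unfold phase
  split_ifs with h
  · exact h.choose_spec.1.le
  · exact le_rfl

lemma phase_spec (A : ℤ → ℤ → Prop) (f g : ℤ → ℤ) :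
    phase A f g = 4 ∨ LineOK A f g (phase A f g) := by
  unfold phase
  split_ifs with h
  · exact Or.inr h.choose_spec.2
  · exact Or.inl rfl

lemma ind_phase (A : ℤ → ℤ → Prop) (f g : ℤ → ℤ) :
    ind (GoodLine A f g) = pr (phase A f g) := by
  unfold ind phase pr
  split_ifs with h
  · have h4 := h.choose_spec.1
    have : (h.choose == 4) = false := by
      rw [beq_eq_false_iff_ne]; omega
    rw [this]; rfl
  · rfl

lemma all5_spec {f : ℕ → Bool} (h : all5 f = true) {k : ℕ} (hk : k ≤ 4) : f k = true := by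
  unfold all5 at h
  simp only [Bool.and_eq_true] at h
  obtain ⟨⟨⟨⟨h0, h1⟩, h2⟩, h3⟩, h4⟩ := h
  interval_cases k <;> assumption

lemma check_all {r : ℕ} (hr : r ≤ 4) : check r = true := by
  interval_cases r
  · exact check0
  · exact check1
  · exact check2
  · exact check3
  · exact check4

lemma checkRow_all {r0 r1 r2 r3 : ℕ} (h0 : r0 ≤ 4) (h1 : r1 ≤ 4) (h2 : r2 ≤ 4) (h3 : r3 ≤ 4) :
    checkRow r0 r1 r2 r3 = true :=
  all5_spec (all5_spec (all5_spec (check_all h0) h1) h2) h3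

lemma total_le {r0 r1 r2 r3 s0 s1 s2 s3 : ℕ} (h0 : r0 ≤ 4) (h1 : r1 ≤ 4) (h2 : r2 ≤ 4)
    (h3 : r3 ≤ 4) (k0 : s0 ≤ 4) (k1 : s1 ≤ 4) (k2 : s2 ≤ 4) (k3 : s3 ≤ 4)
    (c0 : cC r0 r1 r2 r3 0 s0 = true) (c1 : cC r0 r1 r2 r3 1 s1 = true)
    (c2 : cC r0 r1 r2 r3 2 s2 = true) (c3 : cC r0 r1 r2 r3 3 s3 = true) :
    total r0 r1 r2 r3 s0 s1 s2 s3 ≤ 12 := by
  have h := checkRow_all h0 h1 h2 h3
  unfold checkRow at h
  have e0 := all5_spec h k0
  simp only [c0, Bool.not_true, Bool.false_or] at e0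
  have e1 := all5_spec e0 k1
  simp only [c1, Bool.not_true, Bool.false_or] at e1
  have e2 := all5_spec e1 k2
  simp only [c2, Bool.not_true, Bool.false_or] at e2
  have e3 := all5_spec e2 k3
  simp only [c3, Bool.not_true, Bool.false_or] at e3
  rw [Bool.or_eq_true] at e3
  rcases e3 with e3 | e3
  · have e4 := Nat.le_of_ble_eq_true e3
    have hb : ∀ b : Bool, b2n b ≤ 1 := by intro b; cases b <;> decide
    unfold total
    have := hb (dOK r0 r1 r2 r3 s0 s1 s2 s3 0)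
    have := hb (dOK r0 r1 r2 r3 s0 s1 s2 s3 1)
    have := hb (dOK r0 r1 r2 r3 s0 s1 s2 s3 2)
    have := hb (dOK r0 r1 r2 r3 s0 s1 s2 s3 3)
    have := hb (eOK r0 r1 r2 r3 s0 s1 s2 s3 0)
    have := hb (eOK r0 r1 r2 r3 s0 s1 s2 s3 1)
    have := hb (eOK r0 r1 r2 r3 s0 s1 s2 s3 2)
    have := hb (eOK r0 r1 r2 r3 s0 s1 s2 s3 3)
    omega
  · exact Nat.le_of_ble_eq_true e3

lemma beq_iff {a b c d : ℕ} (h : a = b ↔ c = d) : ((a == b) == (c == d)) = true := by
  rw [beq_iff_eq]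
  by_cases h' : c = d
  · have := h.2 h'
    subst h'; subst this; simp
  · have h2 : a ≠ b := fun h3 => h' (h.1 h3)
    rw [beq_eq_false_iff_ne.2 h', beq_eq_false_iff_ne.2 h2]

variable {A : ℤ → ℤ → Prop}

lemma cRC_of {y x : ℕ} (hy : y < 4) (hx : x < 4) :
    cRC y x (phase A (fun t => t) (fun _ => (y : ℤ))) (phase A (fun _ => (x : ℤ)) (fun t => t)) =
      true := by
  unfold cRC
  rcases phase_spec A (fun t => t) (fun _ => (y : ℤ)) with h | h
  · rw [h]; simp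
  rcases phase_spec A (fun _ => (x : ℤ)) (fun t => t) with h' | h'
  · rw [h']; simp
  have e1 := h x (by omega) (by omega)
  have e2 := h' y (by omega) (by omega)
  simp only at e1 e2
  have e3 := e1.symm.trans e2
  rw [Bool.or_eq_true]
  right
  apply beq_iff
  constructor <;> intro h5 <;> omega

lemma cRD_of {y c φ : ℕ} (hy : y < 4) (hc : c < 4)
    (ht : LineOK A (fun t => (c : ℤ) + t) (fun t => t) φ) :
    cRD y c (phase A (fun t => t) (fun _ => (y : ℤ))) φ = true := by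
  unfold cRD
  rcases phase_spec A (fun t => t) (fun _ => (y : ℤ)) with h | h
  · rw [h]; simp
  have e1 := h (c + y) (by omega) (by omega)
  have e2 := ht y (by omega) (by omega)
  simp only at e1 e2
  have e3 := e1.symm.trans e2
  rw [Bool.or_eq_true]
  right
  apply beq_iff
  constructor <;> intro h5 <;> omega

lemma cCD_of {x c φ : ℕ} (hx : x < 4) (hc : c < 4)
    (ht : LineOK A (fun t => (c : ℤ) + t) (fun t => t) φ) :
    cCD x c (phase A (fun _ => (x : ℤ)) (fun t => t)) φ = true := by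
  unfold cCD
  rcases phase_spec A (fun _ => (x : ℤ)) (fun t => t) with h | h
  · rw [h]; simp
  have e1 := h (x - c) (by omega) (by omega)
  have e2 := ht (x - c) (by omega) (by omega)
  simp only [add_sub_cancel] at e1 e2
  have e3 := e1.symm.trans e2
  rw [Bool.or_eq_true]
  right
  apply beq_iff
  constructor <;> intro h5 <;> omega

lemma cRE_of {y d φ : ℕ} (hy : y < 4) (hd : d < 4)
    (ht : LineOK A (fun t => (d : ℤ) + t) (fun t => -t) φ) :
    cRE y d (phase A (fun t => t) (fun _ => (y : ℤ))) φ = true := by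
  unfold cRE
  rcases phase_spec A (fun t => t) (fun _ => (y : ℤ)) with h | h
  · rw [h]; simp
  have e1 := h (d - y) (by omega) (by omega)
  have e2 := ht (-y) (by omega) (by omega)
  simp only [neg_neg, ← sub_eq_add_neg] at e1 e2
  have e3 := e1.symm.trans e2
  rw [Bool.or_eq_true]
  right
  apply beq_iff
  constructor <;> intro h5 <;> omega

lemma cCE_of {x d φ : ℕ} (hx : x < 4) (hd : d < 4)
    (ht : LineOK A (fun t => (d : ℤ) + t) (fun t => -t) φ) :
    cCE x d (phase A (fun _ => (x : ℤ)) (fun t => t)) φ = true := by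
  unfold cCE
  rcases phase_spec A (fun _ => (x : ℤ)) (fun t => t) with h | h
  · rw [h]; simp
  have e1 := h (d - x) (by omega) (by omega)
  have e2 := ht (x - d) (by omega) (by omega)
  simp only [add_sub_cancel, neg_sub] at e1 e2
  have e3 := e1.symm.trans e2
  rw [Bool.or_eq_true]
  right
  apply beq_iff
  constructor <;> intro h5 <;> omega

lemma dOK_of {c : ℕ} (hc : c < 4) (hg : GoodLine A (fun t => (c : ℤ) + t) (fun t => t)) :
    dOK (phase A (fun t => t) (fun _ => ((0 : ℕ) : ℤ))) (phase A (fun t => t) (fun _ => ((1 : ℕ) : ℤ)))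
      (phase A (fun t => t) (fun _ => ((2 : ℕ) : ℤ))) (phase A (fun t => t) (fun _ => ((3 : ℕ) : ℤ)))
      (phase A (fun _ => ((0 : ℕ) : ℤ)) (fun t => t)) (phase A (fun _ => ((1 : ℕ) : ℤ)) (fun t => t))
      (phase A (fun _ => ((2 : ℕ) : ℤ)) (fun t => t)) (phase A (fun _ => ((3 : ℕ) : ℤ)) (fun t => t))
      c = true := by
  obtain ⟨φ, hφ, ht⟩ := hg
  unfold dOK
  simp only [Bool.or_eq_true, Bool.and_eq_true]
  interval_cases φ
  · left; left; left
    exact ⟨⟨⟨⟨⟨⟨⟨cRD_of (by norm_num) hc ht, cRD_of (by norm_num) hc ht⟩,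
      cRD_of (by norm_num) hc ht⟩, cRD_of (by norm_num) hc ht⟩, cCD_of (by norm_num) hc ht⟩,
      cCD_of (by norm_num) hc ht⟩, cCD_of (by norm_num) hc ht⟩, cCD_of (by norm_num) hc ht⟩
  · left; left; right
    exact ⟨⟨⟨⟨⟨⟨⟨cRD_of (by norm_num) hc ht, cRD_of (by norm_num) hc ht⟩,
      cRD_of (by norm_num) hc ht⟩, cRD_of (by norm_num) hc ht⟩, cCD_of (by norm_num) hc ht⟩,
      cCD_of (by norm_num) hc ht⟩, cCD_of (by norm_num) hc ht⟩, cCD_of (by norm_num) hc ht⟩
  · left; right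
    exact ⟨⟨⟨⟨⟨⟨⟨cRD_of (by norm_num) hc ht, cRD_of (by norm_num) hc ht⟩,
      cRD_of (by norm_num) hc ht⟩, cRD_of (by norm_num) hc ht⟩, cCD_of (by norm_num) hc ht⟩,
      cCD_of (by norm_num) hc ht⟩, cCD_of (by norm_num) hc ht⟩, cCD_of (by norm_num) hc ht⟩
  · right
    exact ⟨⟨⟨⟨⟨⟨⟨cRD_of (by norm_num) hc ht, cRD_of (by norm_num) hc ht⟩,
      cRD_of (by norm_num) hc ht⟩, cRD_of (by norm_num) hc ht⟩, cCD_of (by norm_num) hc ht⟩,
      cCD_of (by norm_num) hc ht⟩, cCD_of (by norm_num) hc ht⟩, cCD_of (by norm_num) hc ht⟩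

lemma eOK_of {c : ℕ} (hc : c < 4) (hg : GoodLine A (fun t => (c : ℤ) + t) (fun t => -t)) :
    eOK (phase A (fun t => t) (fun _ => ((0 : ℕ) : ℤ))) (phase A (fun t => t) (fun _ => ((1 : ℕ) : ℤ)))
      (phase A (fun t => t) (fun _ => ((2 : ℕ) : ℤ))) (phase A (fun t => t) (fun _ => ((3 : ℕ) : ℤ)))
      (phase A (fun _ => ((0 : ℕ) : ℤ)) (fun t => t)) (phase A (fun _ => ((1 : ℕ) : ℤ)) (fun t => t))
      (phase A (fun _ => ((2 : ℕ) : ℤ)) (fun t => t)) (phase A (fun _ => ((3 : ℕ) : ℤ)) (fun t => t))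
      c = true := by
  obtain ⟨φ, hφ, ht⟩ := hg
  unfold eOK
  simp only [Bool.or_eq_true, Bool.and_eq_true]
  interval_cases φ
  · left; left; left
    exact ⟨⟨⟨⟨⟨⟨⟨cRE_of (by norm_num) hc ht, cRE_of (by norm_num) hc ht⟩,
      cRE_of (by norm_num) hc ht⟩, cRE_of (by norm_num) hc ht⟩, cCE_of (by norm_num) hc ht⟩,
      cCE_of (by norm_num) hc ht⟩, cCE_of (by norm_num) hc ht⟩, cCE_of (by norm_num) hc ht⟩
  · left; left; right
    exact ⟨⟨⟨⟨⟨⟨⟨cRE_of (by norm_num) hc ht, cRE_of (by norm_num) hc ht⟩,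
      cRE_of (by norm_num) hc ht⟩, cRE_of (by norm_num) hc ht⟩, cCE_of (by norm_num) hc ht⟩,
      cCE_of (by norm_num) hc ht⟩, cCE_of (by norm_num) hc ht⟩, cCE_of (by norm_num) hc ht⟩
  · left; right
    exact ⟨⟨⟨⟨⟨⟨⟨cRE_of (by norm_num) hc ht, cRE_of (by norm_num) hc ht⟩,
      cRE_of (by norm_num) hc ht⟩, cRE_of (by norm_num) hc ht⟩, cCE_of (by norm_num) hc ht⟩,
      cCE_of (by norm_num) hc ht⟩, cCE_of (by norm_num) hc ht⟩, cCE_of (by norm_num) hc ht⟩
  · right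
    exact ⟨⟨⟨⟨⟨⟨⟨cRE_of (by norm_num) hc ht, cRE_of (by norm_num) hc ht⟩,
      cRE_of (by norm_num) hc ht⟩, cRE_of (by norm_num) hc ht⟩, cCE_of (by norm_num) hc ht⟩,
      cCE_of (by norm_num) hc ht⟩, cCE_of (by norm_num) hc ht⟩, cCE_of (by norm_num) hc ht⟩

lemma ind_le_b2n {P : Prop} {b : Bool} (h : P → b = true) : ind P ≤ b2n b := by
  unfold ind
  split_ifs with hP
  · rw [h hP]; decide
  · exact Nat.zero_le _

/-- **The window lemma**: at most 12 of the 16 lines are good. -/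
theorem window (A : ℤ → ℤ → Prop) :
    (ind (GoodLine A (fun t => t) (fun _ => ((0 : ℕ) : ℤ))) +
      ind (GoodLine A (fun t => t) (fun _ => ((1 : ℕ) : ℤ))) +
      ind (GoodLine A (fun t => t) (fun _ => ((2 : ℕ) : ℤ))) +
      ind (GoodLine A (fun t => t) (fun _ => ((3 : ℕ) : ℤ)))) +
    (ind (GoodLine A (fun _ => ((0 : ℕ) : ℤ)) (fun t => t)) +
      ind (GoodLine A (fun _ => ((1 : ℕ) : ℤ)) (fun t => t)) +
      ind (GoodLine A (fun _ => ((2 : ℕ) : ℤ)) (fun t => t)) +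
      ind (GoodLine A (fun _ => ((3 : ℕ) : ℤ)) (fun t => t))) +
    (ind (GoodLine A (fun t => ((0 : ℕ) : ℤ) + t) (fun t => t)) +
      ind (GoodLine A (fun t => ((1 : ℕ) : ℤ) + t) (fun t => t)) +
      ind (GoodLine A (fun t => ((2 : ℕ) : ℤ) + t) (fun t => t)) +
      ind (GoodLine A (fun t => ((3 : ℕ) : ℤ) + t) (fun t => t))) +
    (ind (GoodLine A (fun t => ((0 : ℕ) : ℤ) + t) (fun t => -t)) +
      ind (GoodLine A (fun t => ((1 : ℕ) : ℤ) + t) (fun t => -t)) +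
      ind (GoodLine A (fun t => ((2 : ℕ) : ℤ) + t) (fun t => -t)) +
      ind (GoodLine A (fun t => ((3 : ℕ) : ℤ) + t) (fun t => -t))) ≤ 12 := by
  have hC : ∀ x : ℕ, x < 4 →
      cC (phase A (fun t => t) (fun _ => ((0 : ℕ) : ℤ))) (phase A (fun t => t) (fun _ => ((1 : ℕ) : ℤ)))
      (phase A (fun t => t) (fun _ => ((2 : ℕ) : ℤ))) (phase A (fun t => t) (fun _ => ((3 : ℕ) : ℤ)))
      x (phase A (fun _ => (x : ℤ)) (fun t => t)) = true := by
    intro x hx
    unfold cC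
    simp only [Bool.and_eq_true]
    exact ⟨⟨⟨cRC_of (by norm_num) hx, cRC_of (by norm_num) hx⟩, cRC_of (by norm_num) hx⟩,
      cRC_of (by norm_num) hx⟩
  have key := total_le (phase_le A (fun t => t) (fun _ => ((0 : ℕ) : ℤ)))
    (phase_le A (fun t => t) (fun _ => ((1 : ℕ) : ℤ)))
    (phase_le A (fun t => t) (fun _ => ((2 : ℕ) : ℤ)))
    (phase_le A (fun t => t) (fun _ => ((3 : ℕ) : ℤ)))
    (phase_le A (fun _ => ((0 : ℕ) : ℤ)) (fun t => t))
    (phase_le A (fun _ => ((1 : ℕ) : ℤ)) (fun t => t))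
    (phase_le A (fun _ => ((2 : ℕ) : ℤ)) (fun t => t))
    (phase_le A (fun _ => ((3 : ℕ) : ℤ)) (fun t => t))
    (hC 0 (by norm_num)) (hC 1 (by norm_num)) (hC 2 (by norm_num)) (hC 3 (by norm_num))
  unfold total at key
  simp only [← ind_phase] at key
  have d0 := ind_le_b2n (dOK_of (A := A) (c := 0) (by norm_num))
  have d1 := ind_le_b2n (dOK_of (A := A) (c := 1) (by norm_num))
  have d2 := ind_le_b2n (dOK_of (A := A) (c := 2) (by norm_num))
  have d3 := ind_le_b2n (dOK_of (A := A) (c := 3) (by norm_num))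
  have e0 := ind_le_b2n (eOK_of (A := A) (c := 0) (by norm_num))
  have e1 := ind_le_b2n (eOK_of (A := A) (c := 1) (by norm_num))
  have e2 := ind_le_b2n (eOK_of (A := A) (c := 2) (by norm_num))
  have e3 := ind_le_b2n (eOK_of (A := A) (c := 3) (by norm_num))
  omega

end Pool.Agent.V11199.WS
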