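import Mathlib

/-!
Finite part of the upper bound for word search concentration (word `(ABBB)^4`, dimension 2).

Among the 16 toroidal lines (4 rows, 4 columns, 4 diagonals, 4 antidiagonals) at most 12 can carry
exactly one `A` per four consecutive cells in a mutually consistent way.  Phases are elements of
`Fin 5`, where `4` means line not good.
-/

namespace Pool.Agent.V11199.WS

/-- consistency of row `y` (phase `r`) and column `x` (phase `s`) -/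
def cRC (y x : ℕ) (r s : ℕ) : Bool :=
  r == 4 || s == 4 || ((x == r) == (y == s))

/-- consistency of row `y` (phase `r`) with diagonal `c` (phase `t`) -/
def cRD (y c : ℕ) (r t : ℕ) : Bool :=
  r == 4 || (((c + y) % 4 == r) == (y == t))

/-- consistency of column `x` (phase `s`) with diagonal `c` (phase `t`) -/
def cCD (x c : ℕ) (s t : ℕ) : Bool :=
  s == 4 || (((x + 4 - c) % 4 == s) == ((x + 4 - c) % 4 == t))

/-- consistency of row `y` (phase `r`) with antidiagonal `d` (phase `e`) -/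
def cRE (y d : ℕ) (r e : ℕ) : Bool :=
  r == 4 || (((d + 4 - y) % 4 == r) == ((4 - y) % 4 == e))

/-- consistency of column `x` (phase `s`) with antidiagonal `d` (phase `e`) -/
def cCE (x d : ℕ) (s e : ℕ) : Bool :=
  s == 4 || (((d + 4 - x) % 4 == s) == ((x + 4 - d) % 4 == e))

/-- diagonal `c` can be good -/
def dOK (r0 r1 r2 r3 s0 s1 s2 s3 : ℕ) (c : ℕ) : Bool :=
  (cRD 0 c r0 0 && cRD 1 c r1 0 && cRD 2 c r2 0 && cRD 3 c r3 0 &&
    cCD 0 c s0 0 && cCD 1 c s1 0 && cCD 2 c s2 0 && cCD 3 c s3 0) ||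
  (cRD 0 c r0 1 && cRD 1 c r1 1 && cRD 2 c r2 1 && cRD 3 c r3 1 &&
    cCD 0 c s0 1 && cCD 1 c s1 1 && cCD 2 c s2 1 && cCD 3 c s3 1) ||
  (cRD 0 c r0 2 && cRD 1 c r1 2 && cRD 2 c r2 2 && cRD 3 c r3 2 &&
    cCD 0 c s0 2 && cCD 1 c s1 2 && cCD 2 c s2 2 && cCD 3 c s3 2) ||
  (cRD 0 c r0 3 && cRD 1 c r1 3 && cRD 2 c r2 3 && cRD 3 c r3 3 &&
    cCD 0 c s0 3 && cCD 1 c s1 3 && cCD 2 c s2 3 && cCD 3 c s3 3)

/-- antidiagonal `d` can be good -/
def eOK (r0 r1 r2 r3 s0 s1 s2 s3 : ℕ) (d : ℕ) : Bool :=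
  (cRE 0 d r0 0 && cRE 1 d r1 0 && cRE 2 d r2 0 && cRE 3 d r3 0 &&
    cCE 0 d s0 0 && cCE 1 d s1 0 && cCE 2 d s2 0 && cCE 3 d s3 0) ||
  (cRE 0 d r0 1 && cRE 1 d r1 1 && cRE 2 d r2 1 && cRE 3 d r3 1 &&
    cCE 0 d s0 1 && cCE 1 d s1 1 && cCE 2 d s2 1 && cCE 3 d s3 1) ||
  (cRE 0 d r0 2 && cRE 1 d r1 2 && cRE 2 d r2 2 && cRE 3 d r3 2 &&
    cCE 0 d s0 2 && cCE 1 d s1 2 && cCE 2 d s2 2 && cCE 3 d s3 2) ||
  (cRE 0 d r0 3 && cRE 1 d r1 3 && cRE 2 d r2 3 && cRE 3 d r3 3 &&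
    cCE 0 d s0 3 && cCE 1 d s1 3 && cCE 2 d s2 3 && cCE 3 d s3 3)

/-- `1` if the phase is present -/
def pr (r : ℕ) : ℕ := bif r == 4 then 0 else 1

def b2n (b : Bool) : ℕ := bif b then 1 else 0

def total (r0 r1 r2 r3 s0 s1 s2 s3 : ℕ) : ℕ :=
  pr r0 + pr r1 + pr r2 + pr r3 + pr s0 + pr s1 + pr s2 + pr s3 +
  b2n (dOK r0 r1 r2 r3 s0 s1 s2 s3 0) + b2n (dOK r0 r1 r2 r3 s0 s1 s2 s3 1) +
  b2n (dOK r0 r1 r2 r3 s0 s1 s2 s3 2) + b2n (dOK r0 r1 r2 r3 s0 s1 s2 s3 3) +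
  b2n (eOK r0 r1 r2 r3 s0 s1 s2 s3 0) + b2n (eOK r0 r1 r2 r3 s0 s1 s2 s3 1) +
  b2n (eOK r0 r1 r2 r3 s0 s1 s2 s3 2) + b2n (eOK r0 r1 r2 r3 s0 s1 s2 s3 3)

/-- all values `0,…,4` -/
def all5 (f : ℕ → Bool) : Bool := f 0 && f 1 && f 2 && f 3 && f 4

/-- column `x` with phase `s` is consistent with all rows -/
def cC (r0 r1 r2 r3 : ℕ) (x s : ℕ) : Bool :=
  cRC 0 x r0 s && cRC 1 x r1 s && cRC 2 x r2 s && cRC 3 x r3 s

def checkRow (r0 r1 r2 r3 : ℕ) : Bool :=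
  all5 fun s0 => (!cC r0 r1 r2 r3 0 s0) || all5 fun s1 => (!cC r0 r1 r2 r3 1 s1) ||
  all5 fun s2 => (!cC r0 r1 r2 r3 2 s2) || all5 fun s3 => (!cC r0 r1 r2 r3 3 s3) ||
    Nat.ble (pr r0 + pr r1 + pr r2 + pr r3 + pr s0 + pr s1 + pr s2 + pr s3) 4 ||
    Nat.ble (total r0 r1 r2 r3 s0 s1 s2 s3) 12

def check (r0 : ℕ) : Bool :=
  all5 fun r1 => all5 fun r2 => all5 fun r3 => checkRow r0 r1 r2 r3

set_option maxRecDepth 100000 in
theorem check0 : check 0 = true := by decide +kernel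
set_option maxRecDepth 100000 in
theorem check1 : check 1 = true := by decide +kernel
set_option maxRecDepth 100000 in
theorem check2 : check 2 = true := by decide +kernel
set_option maxRecDepth 100000 in
theorem check3 : check 3 = true := by decide +kernel
set_option maxRecDepth 100000 in
theorem check4 : check 4 = true := by decide +kernel

end Pool.Agent.V11199.WS
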